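import Pool.Agent.H84.LSB.TargetsHL

/-!
# Row HRG of hlm_modules
-/

set_option autoImplicit false

namespace Pool.Agent.H98.HLM

open MeasureTheory Set
open Pool.Agent.H83.G
open Pool.Agent.H88.B2
open Pool.Agent.H84.LSB
open scoped ENNReal NNReal RealInnerProductSpace

private instance haarY : (volume : Measure (E 2 × ℝ)).IsAddHaarMeasure :=
  inferInstanceAs ((volume : Measure (E 2)).prod (volume : Measure ℝ)).IsAddHaarMeasure

private instance haarZ : (volume : Measure (Z 2)).IsAddHaarMeasure :=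
  inferInstanceAs ((volume : Measure ℝ).prod (volume : Measure (E 2 × ℝ))).IsAddHaarMeasure

theorem finrank_Z2 : Module.finrank ℝ (Z 2) = 4 := by
  rw [Module.finrank_prod, Module.finrank_prod, finrank_euclideanSpace]
  simp

theorem ph_smul_right (w : ℝ) (z ξ : Z 2) : ph z (w • ξ) = ph (w • z) ξ := by
  unfold ph
  simp only [Prod.smul_fst, Prod.smul_snd, smul_eq_mul, inner_smul_left, inner_smul_right]
  simp
  ring

theorem cont_e : Continuous e := by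
  unfold e
  fun_prop

theorem cont_ph (z : Z 2) : Continuous (fun ζ : Z 2 => ph z ζ) := by
  unfold ph
  fun_prop

/-- dilation of a bump -/
theorem dil (w : ℝ) (hw : 0 < w) (F : Z 2 → ℂ) (hF : TC F) :
    TC (fun ζ => (((w⁻¹) ^ 4 : ℝ) : ℂ) * F (w⁻¹ • ζ)) ∧
    ∀ z, TF (fun ζ => (((w⁻¹) ^ 4 : ℝ) : ℂ) * F (w⁻¹ • ζ)) z = TF F (w • z) := by
  refine ⟨⟨?_, ?_⟩, fun z => ?_⟩
  · have h1 : ContDiff ℝ (⊤ : ℕ∞) (fun ζ : Z 2 => w⁻¹ • ζ) := contDiff_const_smul w⁻¹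
    exact contDiff_const.mul (hF.1.comp h1)
  · have h1 : HasCompactSupport (fun ζ : Z 2 => F (w⁻¹ • ζ)) :=
      hF.2.comp_smul (inv_ne_zero hw.ne')
    exact h1.mul_left
  · unfold TF
    have h1 := Measure.integral_comp_inv_smul (volume : Measure (Z 2))
      (fun ξ : Z 2 => (((w⁻¹) ^ 4 : ℝ) : ℂ) * (e (ph z (w • ξ)) * F ξ)) w
    have h2 : (fun ζ : Z 2 => e (ph z ζ) * ((((w⁻¹) ^ 4 : ℝ) : ℂ) * F (w⁻¹ • ζ))) =
        fun ζ : Z 2 => (((w⁻¹) ^ 4 : ℝ) : ℂ) * (e (ph z (w • w⁻¹ • ζ)) * F (w⁻¹ • ζ)) := by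
      funext ζ
      rw [smul_inv_smul₀ hw.ne']
      ring
    rw [h2, h1, finrank_Z2, abs_of_pos (pow_pos hw 4), integral_const_mul]
    have h3 : (fun ξ : Z 2 => e (ph z (w • ξ)) * F ξ) = fun ξ => e (ph (w • z) ξ) * F ξ := by
      funext ξ
      rw [ph_smul_right]
    rw [h3]
    rw [Complex.real_smul, ← mul_assoc, ← Complex.ofReal_mul]
    have h4 : w ^ 4 * (w⁻¹) ^ 4 = 1 := by
      rw [← mul_pow, mul_inv_cancel₀ hw.ne', one_pow]
    rw [h4, Complex.ofReal_one, one_mul]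

/-- finite sums of bumps -/
theorem tc_sum {α : Type} (T : Finset α) (F : α → Z 2 → ℂ) (hF : ∀ W ∈ T, TC (F W)) :
    TC (fun ζ => ∑ W ∈ T, F W ζ) ∧ ∀ z, TF (fun ζ => ∑ W ∈ T, F W ζ) z = ∑ W ∈ T, TF (F W) z := by
  refine ⟨⟨ContDiff.sum fun W hW => (hF W hW).1, ?_⟩, fun z => ?_⟩
  · classical
    induction T using Finset.induction_on with
    | empty =>
      have h0 : (fun ζ : Z 2 => ∑ W ∈ (∅ : Finset α), F W ζ) = fun _ => 0 := by
        funext ζ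
        simp
      rw [h0]
      exact HasCompactSupport.zero
    | insert a T ha ih =>
      have h0 : (fun ζ : Z 2 => ∑ W ∈ insert a T, F W ζ) =
          (F a) + (fun ζ : Z 2 => ∑ W ∈ T, F W ζ) := by
        funext ζ
        rw [Finset.sum_insert ha]
        rfl
      rw [h0]
      exact HasCompactSupport.add (hF a (Finset.mem_insert_self a T)).2
        (ih fun W hW => hF W (Finset.mem_insert_of_mem hW))
  · unfold TF
    rw [← integral_finsetSum]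
    · congr 1
      funext ζ
      rw [Finset.mul_sum]
    · intro W hW
      have h1 : Continuous (fun ζ : Z 2 => e (ph z ζ) * F W ζ) :=
        (cont_e.comp (cont_ph z)).mul (hF W hW).1.continuous
      exact h1.integrable_of_hasCompactSupport (hF W hW).2.mul_left

theorem pf_HRG (hHSP : T_HSP) (hKBL : T_KBL) (hHKN : T_HKN) : T_HRG := by
  obtain ⟨D₀, hD₀, hsp⟩ := hHSP
  refine ⟨D₀ + 8 * (3 + D₀) ^ 2 + 1, by nlinarith, ?_⟩
  intro N R δ w C₀ φ S G j hR hδ hw hwR hφ hφs hHB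
  have hw0 : 0 < w := by linarith
  have hR0 : 0 < R := by linarith
  have hs0 : 0 < sR R := by
    unfold sR
    exact inv_pos.2 (Real.sqrt_pos.2 hR0)
  have hs1 : sR R ≤ 1 := by
    unfold sR
    exact inv_le_one_of_one_le₀ (by rw [Real.one_le_sqrt]; exact hR)
  have hws : w * sR R ≤ 1 := by
    unfold sR
    rw [← div_eq_mul_inv, div_le_one (Real.sqrt_pos.2 hR0)]
    exact Real.le_sqrt_of_sq_le hwR
  have hws0 : 0 < w * sR R := mul_pos hw0 hs0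
  have hc0 : 0 < R ^ (-δ) := Real.rpow_pos_of_pos hR0 _
  have hc1 : R ^ (-δ) ≤ 1 := Real.rpow_le_one_of_one_le_of_nonpos hR (by linarith)
  obtain ⟨C, hC, hker⟩ := hHKN 2 0 φ hφ (fun x hx => by
    obtain ⟨h1, h2⟩ := hφs x hx
    rw [abs_of_pos (by linarith)]
    exact h2)
  have hTC : ∀ W ∈ Sb w S j, TC (mu1 φ w (G W)) := by
    intro W hW
    have hWS : W ∈ S := by
      unfold Sb at hW
      exact (Finset.mem_filter.1 hW).1
    exact (hker w (G W) hw0 (hHB W hWS).2.2.1).1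
  have hsum := tc_sum (Sb w S j)
    (fun W ζ => (((w⁻¹) ^ 4 : ℝ) : ℂ) * mu1 φ w (G W) (w⁻¹ • ζ))
    (fun W hW => (dil w hw0 _ (hTC W hW)).1)
  refine ⟨_, hsum.1, fun z => ?_, fun ζ hζ => ?_⟩
  · rw [hsum.2 z]
    exact Finset.sum_congr rfl fun W hW => (dil w hw0 _ (hTC W hW)).2 z
  · obtain ⟨W, hW, hne⟩ := Finset.exists_ne_zero_of_sum_ne_zero hζ
    have hWf : W ∈ S ∧ kb w W.1 = j := by
      unfold Sb at hW
      exact Finset.mem_filter.1 hW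
    obtain ⟨hWS, hkb⟩ := hWf
    have hne1 : mu1 φ w (G W) (w⁻¹ • ζ) ≠ 0 := right_ne_zero_of_mul hne
    unfold mu1 at hne1
    have hφne : φ (w * (w⁻¹ • ζ).1) ≠ 0 := by
      intro h0
      apply left_ne_zero_of_mul hne1
      rw [h0, Complex.ofReal_zero]
    have hGne : G W (w⁻¹ • ζ) ≠ 0 := right_ne_zero_of_mul hne1
    have hz1 : w * (w⁻¹ • ζ).1 = ζ.1 := by
      rw [Prod.smul_fst, smul_eq_mul, mul_inv_cancel_left₀ hw0.ne']
    rw [hz1] at hφne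
    obtain ⟨hl, hu⟩ := hφs _ hφne
    obtain ⟨hWK, hctr, -, -, hsupp⟩ := hHB W hWS
    obtain ⟨ζ', hζ', hζe⟩ := hsupp _ hGne
    have hζe2 : ζ = w • R ^ (-δ) • Ld (ctr (sR R) W.1) (sR R) ζ' := by
      rw [← hζe, smul_inv_smul₀ hw0.ne']
    obtain ⟨h1, h2⟩ := hsp 2 (R ^ (-δ)) (sR R) w (ctr (sR R) W.1) ζ' ζ hc0 hc1 hs0 hs1 hw hζ'
      hζe2 hl
    have h3 := (hKBL R w W.1 hR hw).1
    rw [hkb] at h3
    have hz0 : 0 < ζ.1 := by linarith
    have h4 : ‖ζ.1⁻¹ • ζ.2.1‖ ≤ 3 + D₀ := by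
      have h5 : ζ.1⁻¹ • ζ.2.1 = (ζ.1⁻¹ • ζ.2.1 - ctr (sR R) W.1) + ctr (sR R) W.1 := by abel
      rw [h5]
      refine (norm_add_le _ _).trans ?_
      have h6 : D₀ * (w * sR R) ≤ D₀ := by nlinarith
      linarith
    have h5 : ‖ζ.2.1‖ ≤ 2 * (3 + D₀) := by
      have h6 : ζ.2.1 = ζ.1 • (ζ.1⁻¹ • ζ.2.1) := by rw [smul_inv_smul₀ hz0.ne']
      rw [h6, norm_smul, Real.norm_eq_abs, abs_of_pos hz0]
      have h7 : 0 ≤ ‖ζ.1⁻¹ • ζ.2.1‖ := norm_nonneg _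
      nlinarith
    have h6 : ‖ζ.2.1‖ ^ 2 / ζ.1 ≤ 8 * (3 + D₀) ^ 2 := by
      rw [div_le_iff₀ hz0]
      have h7 : 0 ≤ ‖ζ.2.1‖ := norm_nonneg _
      have h8 : ‖ζ.2.1‖ ^ 2 ≤ (2 * (3 + D₀)) ^ 2 := by
        exact pow_le_pow_left₀ h7 h5 2
      nlinarith [sq_nonneg (3 + D₀)]
    have h6' : 0 ≤ ‖ζ.2.1‖ ^ 2 / ζ.1 := by positivity
    have hsq : (w * sR R) ^ 2 ≤ 1 := by nlinarith
    have h7 : |ζ.2.2| ≤ D₀ + 8 * (3 + D₀) ^ 2 := by
      have h8 : ζ.2.2 = (ζ.2.2 - ‖ζ.2.1‖ ^ 2 / ζ.1) + ‖ζ.2.1‖ ^ 2 / ζ.1 := by ring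
      rw [h8]
      refine (abs_add_le _ _).trans ?_
      rw [abs_of_nonneg h6']
      have h9 : D₀ * (w * sR R) ^ 2 ≤ D₀ := by nlinarith
      linarith
    have hbig : D₀ ≤ D₀ + 8 * (3 + D₀) ^ 2 + 1 := by nlinarith [sq_nonneg (3 + D₀)]
    refine ⟨hl, hu, ?_, ?_, ?_⟩
    · rw [Prod.norm_def, Prod.norm_def]
      refine max_le ?_ (max_le ?_ ?_)
      · rw [Real.norm_eq_abs, abs_of_pos hz0]
        nlinarith
      · nlinarith
      · rw [Real.norm_eq_abs]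
        linarith
    · have h8 : ζ.1⁻¹ • ζ.2.1 - ctr (w * sR R) j = (ζ.1⁻¹ • ζ.2.1 - ctr (sR R) W.1) +
          (ctr (sR R) W.1 - ctr (w * sR R) j) := by abel
      rw [h8]
      refine (norm_add_le _ _).trans ?_
      nlinarith [sq_nonneg (3 + D₀)]
    · refine h2.trans ?_
      exact mul_le_mul_of_nonneg_right hbig (sq_nonneg _)

end Pool.Agent.H98.HLM
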