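import Pool.Agent.H84.LSB.TargetsHL

/-!
# Row MKB of hlm_modules
-/

set_option autoImplicit false

namespace Pool.Agent.H98.HLM

open MeasureTheory Set
open Pool.Agent.H83.G
open Pool.Agent.H88.B2
open Pool.Agent.H84.LSB
open scoped ENNReal NNReal RealInnerProductSpace

/-- a summable weight -/
noncomputable def fw (t : ℝ) : ℝ := (1 + |t|) ^ (-(5 / 3 : ℝ))

theorem fw_pos (t : ℝ) : 0 < fw t := by
  unfold fw
  have := abs_nonneg t
  positivity

theorem fw_anti {t M : ℝ} (h : |t| ≤ M) : (1 + M) ^ (-(5 / 3 : ℝ)) ≤ fw t := by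
  unfold fw
  have := abs_nonneg t
  exact Real.rpow_le_rpow_of_nonpos (by linarith) (by linarith) (by norm_num)

theorem sum_fw : ∃ C : ℝ, 1 ≤ C ∧ ∀ (w x : ℝ) (T : Finset ℤ), 1 ≤ w →
    ∑ n ∈ T, fw ((x - n) / w) ≤ C * w := by
  have hs : Summable (fun m : ℤ => fw (m : ℝ)) := by
    have h1 : Summable (fun n : ℕ => (((n + 1 : ℕ) : ℝ)) ^ (-(5 / 3 : ℝ))) :=
      (summable_nat_add_iff 1).2 (Real.summable_nat_rpow.2 (by norm_num))
    refine Summable.of_nat_of_neg ?_ ?_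
    · refine h1.congr fun n => ?_
      unfold fw
      congr 1
      push_cast
      rw [abs_of_nonneg (Nat.cast_nonneg n)]
      ring
    · refine h1.congr fun n => ?_
      unfold fw
      congr 1
      push_cast
      rw [abs_neg, abs_of_nonneg (Nat.cast_nonneg n)]
      ring
  refine ⟨8 * (1 + ∑' m : ℤ, fw (m : ℝ)), ?_, fun w x T hw => ?_⟩
  · have : 0 ≤ ∑' m : ℤ, fw (m : ℝ) := tsum_nonneg fun m => (fw_pos _).le
    linarith
  have hw0 : 0 < w := by linarith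
  let g : ℤ → ℤ := fun n => ⌊((n : ℝ) - x) / w⌋
  have h1 : ∀ n ∈ T, fw ((x - n) / w) ≤ 4 * fw (g n) := by
    intro n _
    set t : ℝ := (x - n) / w with ht
    have hb1 : ((g n : ℤ) : ℝ) ≤ -t := by
      have : ((n : ℝ) - x) / w = -t := by rw [ht]; ring
      rw [← this]
      exact Int.floor_le _
    have hb2 : -t < ((g n : ℤ) : ℝ) + 1 := by
      have : ((n : ℝ) - x) / w = -t := by rw [ht]; ring
      rw [← this]
      exact Int.lt_floor_add_one _
    have hb3 : |((g n : ℤ) : ℝ)| ≤ |t| + 1 := by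
      rw [abs_le]
      constructor
      · have := le_abs_self t
        linarith
      · have := neg_le_abs t
        linarith
    have h2 : fw t ≤ ((1 + |((g n : ℤ) : ℝ)|) / 2) ^ (-(5 / 3 : ℝ)) := by
      unfold fw
      have h3 := abs_nonneg t
      have h4 := abs_nonneg ((g n : ℤ) : ℝ)
      exact Real.rpow_le_rpow_of_nonpos (by linarith) (by linarith) (by norm_num)
    refine h2.trans ?_
    have h4 := abs_nonneg ((g n : ℤ) : ℝ)
    rw [Real.div_rpow (by linarith) (by norm_num), div_eq_mul_inv, mul_comm,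
      ← Real.rpow_neg (by norm_num), neg_neg]
    have h5 : (2 : ℝ) ^ (5 / 3 : ℝ) ≤ 4 := by
      have : (4 : ℝ) = 2 ^ (2 : ℝ) := by norm_num
      rw [this]
      exact Real.rpow_le_rpow_of_exponent_le (by norm_num) (by norm_num)
    exact mul_le_mul_of_nonneg_right h5 (fw_pos _).le
  have hcard : ∀ b : ℤ, (((T.filter fun n => g n = b).card : ℕ) : ℝ) ≤ 2 * w := by
    intro b
    have hsub : (T.filter fun n => g n = b) ⊆ Finset.Ico ⌈x + w * b⌉ ⌈x + w * (b + 1)⌉ := by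
      intro n hn
      obtain ⟨-, hn⟩ := Finset.mem_filter.1 hn
      have h2 : ((n : ℝ) - x) / w < b + 1 ∧ (b : ℝ) ≤ ((n : ℝ) - x) / w := by
        have h3 := Int.floor_eq_iff.1 hn
        exact ⟨h3.2, h3.1⟩
      obtain ⟨h3, h4⟩ := h2
      rw [div_lt_iff₀ hw0] at h3
      rw [le_div_iff₀ hw0] at h4
      rw [Finset.mem_Ico, Int.ceil_le, Int.lt_ceil]
      constructor
      · nlinarith
      · nlinarith
    have h3 := Finset.card_le_card hsub
    rw [Int.card_Ico] at h3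
    have h4 : ((⌈x + w * (b + 1)⌉ - ⌈x + w * b⌉).toNat : ℝ) ≤ w + 1 := by
      have h5 : (⌈x + w * (b + 1)⌉ : ℝ) < x + w * (b + 1) + 1 := Int.ceil_lt_add_one _
      have h6 : x + w * b ≤ (⌈x + w * b⌉ : ℝ) := Int.le_ceil _
      have h7 : ((⌈x + w * (b + 1)⌉ - ⌈x + w * b⌉ : ℤ) : ℝ) ≤ w + 1 := by
        push_cast
        linarith
      rcases le_total 0 (⌈x + w * (b + 1)⌉ - ⌈x + w * b⌉) with h8 | h8
      · have h9 : (((⌈x + w * (b + 1)⌉ - ⌈x + w * b⌉).toNat : ℤ) : ℝ) =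
            ((⌈x + w * (b + 1)⌉ - ⌈x + w * b⌉ : ℤ) : ℝ) := by
          rw [Int.toNat_of_nonneg h8]
        rw [← Int.cast_natCast, h9]
        exact h7
      · rw [Int.toNat_of_nonpos h8]
        simp
        linarith
    have h5 : (((T.filter fun n => g n = b).card : ℕ) : ℝ) ≤
        ((⌈x + w * (b + 1)⌉ - ⌈x + w * b⌉).toNat : ℝ) := by exact_mod_cast h3
    linarith
  calc ∑ n ∈ T, fw ((x - n) / w) ≤ ∑ n ∈ T, 4 * fw (g n) := Finset.sum_le_sum h1
    _ = ∑ b ∈ T.image g, (T.filter fun n => g n = b).card • (4 * fw (b : ℝ)) :=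
        Finset.sum_comp (fun b : ℤ => 4 * fw (b : ℝ)) g
    _ ≤ ∑ b ∈ T.image g, (8 * w) * fw (b : ℝ) := by
        refine Finset.sum_le_sum fun b _ => ?_
        rw [nsmul_eq_mul]
        have h2 := hcard b
        have h3 := fw_pos (b : ℝ)
        nlinarith
    _ = (8 * w) * ∑ b ∈ T.image g, fw (b : ℝ) := by rw [Finset.mul_sum]
    _ ≤ (8 * w) * ∑' b : ℤ, fw (b : ℝ) :=
        mul_le_mul_of_nonneg_left (hs.sum_le_tsum _ fun b _ => (fw_pos _).le) (by linarith)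
    _ ≤ 8 * (1 + ∑' m : ℤ, fw (m : ℝ)) * w := by nlinarith

/-- the weight is at most a product of four one-dimensional weights -/
theorem ww_le (N : ℕ) (hN : 5 ≤ N) (R δ w : ℝ) (hR : 1 ≤ R) (hw : 1 ≤ w) (W : Pk 2) (z : Z 2) :
    ww N R δ (w * R ^ δ) W z ≤
      fw (((fc R δ W.1 z).1 - (W.2.1 : ℝ)) / w) *
      (fw (((fc R δ W.1 z).2.1 0 - (W.2.2.1 0 : ℝ)) / 1) *
      (fw (((fc R δ W.1 z).2.1 1 - (W.2.2.1 1 : ℝ)) / 1) *
      fw (((fc R δ W.1 z).2.2 - (W.2.2.2 : ℝ)) / 1))) := by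
  have hR0 : 0 < R := by linarith
  have hRd : 0 < R ^ δ := Real.rpow_pos_of_pos hR0 _
  have hw0 : 0 < w := by linarith
  unfold ww
  have h1 : (R ^ δ / (w * R ^ δ)) * (fc R δ W.1 z - zc W.2).1 =
      ((fc R δ W.1 z).1 - (W.2.1 : ℝ)) / w := by
    rw [Prod.fst_sub]
    have : (zc W.2 : Z 2).1 = (W.2.1 : ℝ) := rfl
    rw [this]
    field_simp
  rw [h1]
  have hpow : ∀ M : ℝ, 0 ≤ M → ((1 + M) ^ N)⁻¹ ≤ (1 + M) ^ (-(5 / 3 : ℝ)) *
      ((1 + M) ^ (-(5 / 3 : ℝ)) * (1 + M) ^ (-(5 / 3 : ℝ))) := by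
    intro M hM
    have h2 : (1 + M) ^ (-(5 / 3 : ℝ)) * ((1 + M) ^ (-(5 / 3 : ℝ)) * (1 + M) ^ (-(5 / 3 : ℝ))) =
        ((1 + M) ^ 5)⁻¹ := by
      rw [← Real.rpow_add (by linarith), ← Real.rpow_add (by linarith)]
      rw [← Real.rpow_natCast, ← Real.rpow_neg (by linarith)]
      norm_num
    rw [h2]
    exact inv_anti₀ (by positivity) (pow_le_pow_right₀ (by linarith) hN)
  refine mul_le_mul ?_ ?_ (by positivity) (fw_pos _).le
  · have h2 : ((1 + |((fc R δ W.1 z).1 - (W.2.1 : ℝ)) / w|) ^ N)⁻¹ ≤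
        (1 + |((fc R δ W.1 z).1 - (W.2.1 : ℝ)) / w|) ^ (-(5 / 3 : ℝ)) := by
      set t := |((fc R δ W.1 z).1 - (W.2.1 : ℝ)) / w| with ht
      have ht0 : 0 ≤ t := abs_nonneg _
      refine (hpow t ht0).trans ?_
      have h3 : (1 + t) ^ (-(5 / 3 : ℝ)) ≤ 1 :=
        Real.rpow_le_one_of_one_le_of_nonpos (by linarith) (by norm_num)
      have h4 : 0 ≤ (1 + t) ^ (-(5 / 3 : ℝ)) := by positivity
      have h5 : (1 + t) ^ (-(5 / 3 : ℝ)) * (1 + t) ^ (-(5 / 3 : ℝ)) ≤ 1 := by nlinarith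
      nlinarith
    exact h2
  · set y := (fc R δ W.1 z - zc W.2).2 with hy
    refine (hpow ‖y‖ (norm_nonneg _)).trans ?_
    have hy1 : ‖y.1‖ ≤ ‖y‖ := by
      rw [Prod.norm_def]
      exact le_max_left _ _
    have hy2 : ‖y.2‖ ≤ ‖y‖ := by
      rw [Prod.norm_def]
      exact le_max_right _ _
    have h20 : (fc R δ W.1 z).2.1 0 - (W.2.2.1 0 : ℝ) = y.1 0 := by
      rw [hy]
      rfl
    have h21 : (fc R δ W.1 z).2.1 1 - (W.2.2.1 1 : ℝ) = y.1 1 := by
      rw [hy]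
      rfl
    have h22 : (fc R δ W.1 z).2.2 - (W.2.2.2 : ℝ) = y.2 := by
      rw [hy]
      rfl
    rw [div_one, div_one, div_one, h20, h21, h22]
    have a0 : |y.1 0| ≤ ‖y‖ := by
      have := PiLp.norm_apply_le y.1 0
      rw [Real.norm_eq_abs] at this
      linarith
    have a1 : |y.1 1| ≤ ‖y‖ := by
      have := PiLp.norm_apply_le y.1 1
      rw [Real.norm_eq_abs] at this
      linarith
    have a2 : |y.2| ≤ ‖y‖ := by
      rw [← Real.norm_eq_abs]
      exact hy2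
    have hp : 0 ≤ (1 + ‖y‖) ^ (-(5 / 3 : ℝ)) := by positivity
    refine mul_le_mul (fw_anti a0) ?_ (by positivity) (fw_pos _).le
    exact mul_le_mul (fw_anti a1) (fw_anti a2) hp (fw_pos _).le

theorem pf_MKB (hKBL : T_KBL) (hPUS : T_PUS) : T_MKB := by
  classical
  intro N hN
  obtain ⟨C, hC, hsum⟩ := sum_fw
  obtain ⟨-, -, C', hC', hKs, -, -⟩ := hPUS 2
  have hC0 : 0 < C := by linarith
  have hC4 : 1 ≤ C ^ 4 := one_le_pow₀ hC
  -- one cap
  have key : ∀ (R δ w : ℝ) (S : Finset (Pk 2)) (z : Z 2), 1 ≤ R → 0 ≤ δ → 1 ≤ w →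
      ∀ k : Fin 2 → ℤ, Nd N R δ (w * R ^ δ) (S.filter fun W => W.1 = k) z ≤ C ^ 4 * w := by
    intro R δ w S z hR hδ hw k
    have hw0 : 0 < w := by linarith
    set x := fc R δ k z with hx
    set f : ℤ × ℤ × ℤ × ℤ → ℝ := fun q =>
      fw ((x.1 - (q.1 : ℝ)) / w) * (fw ((x.2.1 0 - (q.2.1 : ℝ)) / 1) *
        (fw ((x.2.1 1 - (q.2.2.1 : ℝ)) / 1) * fw ((x.2.2 - (q.2.2.2 : ℝ)) / 1))) with hf
    let g : Pk 2 → ℤ × ℤ × ℤ × ℤ := fun W => (W.2.1, W.2.2.1 0, W.2.2.1 1, W.2.2.2)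
    have hfpos : ∀ q, 0 ≤ f q := fun q => by
      rw [hf]
      have h1 := (fw_pos ((x.1 - (q.1 : ℝ)) / w)).le
      have h2 := (fw_pos ((x.2.1 0 - (q.2.1 : ℝ)) / 1)).le
      have h3 := (fw_pos ((x.2.1 1 - (q.2.2.1 : ℝ)) / 1)).le
      have h4 := (fw_pos ((x.2.2 - (q.2.2.2 : ℝ)) / 1)).le
      exact mul_nonneg h1 (mul_nonneg h2 (mul_nonneg h3 h4))
    have h1 : Nd N R δ (w * R ^ δ) (S.filter fun W => W.1 = k) z ≤
        ∑ W ∈ S.filter (fun W => W.1 = k), f (g W) := by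
      unfold Nd
      refine Finset.sum_le_sum fun W hW => ?_
      obtain ⟨-, hWk⟩ := Finset.mem_filter.1 hW
      have h2 := ww_le N hN R δ w hR hw W z
      rw [hWk] at h2
      exact h2
    have hinj : Set.InjOn g (S.filter (fun W => W.1 = k) : Finset (Pk 2)) := by
      intro W hW W' hW' he
      obtain ⟨-, hWk⟩ := Finset.mem_filter.1 hW
      obtain ⟨-, hWk'⟩ := Finset.mem_filter.1 hW'
      have e1 : W.2.1 = W'.2.1 := congrArg (fun q : ℤ × ℤ × ℤ × ℤ => q.1) he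
      have e2 : W.2.2.1 0 = W'.2.2.1 0 := congrArg (fun q : ℤ × ℤ × ℤ × ℤ => q.2.1) he
      have e3 : W.2.2.1 1 = W'.2.2.1 1 := congrArg (fun q : ℤ × ℤ × ℤ × ℤ => q.2.2.1) he
      have e4 : W.2.2.2 = W'.2.2.2 := congrArg (fun q : ℤ × ℤ × ℤ × ℤ => q.2.2.2) he
      refine Prod.ext (hWk.trans hWk'.symm) (Prod.ext e1 (Prod.ext ?_ e4))
      funext i
      fin_cases i
      · exact e2
      · exact e3
    have h2 : ∑ W ∈ S.filter (fun W => W.1 = k), f (g W) =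
        ∑ q ∈ (S.filter (fun W => W.1 = k)).image g, f q := (Finset.sum_image hinj).symm
    set Q := (S.filter (fun W => W.1 = k)).image g with hQ
    obtain ⟨A1, hA1⟩ : ∃ A : Finset ℤ, A = Q.image fun q => q.1 := ⟨_, rfl⟩
    obtain ⟨A2, hA2⟩ : ∃ A : Finset ℤ, A = Q.image fun q => q.2.1 := ⟨_, rfl⟩
    obtain ⟨A3, hA3⟩ : ∃ A : Finset ℤ, A = Q.image fun q => q.2.2.1 := ⟨_, rfl⟩
    obtain ⟨A4, hA4⟩ : ∃ A : Finset ℤ, A = Q.image fun q => q.2.2.2 := ⟨_, rfl⟩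
    have hsub : Q ⊆ A1 ×ˢ (A2 ×ˢ (A3 ×ˢ A4)) := by
      intro q hq
      rw [Finset.mem_product, Finset.mem_product, Finset.mem_product, hA1, hA2, hA3, hA4]
      exact ⟨Finset.mem_image_of_mem _ hq, Finset.mem_image_of_mem _ hq,
        Finset.mem_image_of_mem _ hq, Finset.mem_image_of_mem _ hq⟩
    have h3 : ∑ q ∈ Q, f q ≤ ∑ q ∈ A1 ×ˢ (A2 ×ˢ (A3 ×ˢ A4)), f q :=
      Finset.sum_le_sum_of_subset_of_nonneg hsub fun q _ _ => hfpos q
    have h4 : ∑ q ∈ A1 ×ˢ (A2 ×ˢ (A3 ×ˢ A4)), f q =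
        (∑ a ∈ A1, fw ((x.1 - (a : ℝ)) / w)) *
        ((∑ a ∈ A2, fw ((x.2.1 0 - (a : ℝ)) / 1)) *
        ((∑ a ∈ A3, fw ((x.2.1 1 - (a : ℝ)) / 1)) *
        (∑ a ∈ A4, fw ((x.2.2 - (a : ℝ)) / 1)))) := by
      rw [Finset.sum_product, Finset.sum_mul]
      refine Finset.sum_congr rfl fun a _ => ?_
      rw [Finset.sum_product, Finset.sum_mul, Finset.mul_sum]
      refine Finset.sum_congr rfl fun b _ => ?_
      rw [Finset.sum_product, Finset.sum_mul, Finset.mul_sum, Finset.mul_sum]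
      refine Finset.sum_congr rfl fun c _ => ?_
      rw [Finset.mul_sum, Finset.mul_sum, Finset.mul_sum]
    have s1 := hsum w x.1 A1 hw
    have s2 := hsum 1 (x.2.1 0) A2 le_rfl
    have s3 := hsum 1 (x.2.1 1) A3 le_rfl
    have s4 := hsum 1 x.2.2 A4 le_rfl
    have p1 : ∀ (T : Finset ℤ) (u v : ℝ), 0 ≤ ∑ n ∈ T, fw ((u - (n : ℝ)) / v) :=
      fun T u v => Finset.sum_nonneg fun n _ => (fw_pos _).le
    rw [mul_one] at s2 s3 s4
    calc Nd N R δ (w * R ^ δ) (S.filter fun W => W.1 = k) z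
        ≤ ∑ q ∈ Q, f q := h1.trans h2.le
      _ ≤ _ := h3
      _ = _ := h4
      _ ≤ (C * w) * (C * (C * C)) := by
          refine mul_le_mul s1 ?_ ?_ (by positivity)
          · refine mul_le_mul s2 ?_ ?_ hC0.le
            · exact mul_le_mul s3 s4 (p1 _ _ _) hC0.le
            · exact mul_nonneg (p1 _ _ _) (p1 _ _ _)
          · exact mul_nonneg (p1 _ _ _) (mul_nonneg (p1 _ _ _) (p1 _ _ _))
      _ = C ^ 4 * w := by ring
  -- many caps
  have many : ∀ (R δ w : ℝ) (S : Finset (Pk 2)) (z : Z 2), 1 ≤ R → 0 ≤ δ → 1 ≤ w →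
      Nd N R δ (w * R ^ δ) S z ≤ ((S.image fun W => W.1).card : ℝ) * (C ^ 4 * w) := by
    intro R δ w S z hR hδ hw
    have h1 : Nd N R δ (w * R ^ δ) S z =
        ∑ k ∈ S.image (fun W => W.1), Nd N R δ (w * R ^ δ) (S.filter fun W => W.1 = k) z := by
      unfold Nd
      exact (Finset.sum_fiberwise_of_maps_to (fun W hW => Finset.mem_image_of_mem _ hW) _).symm
    rw [h1, ← nsmul_eq_mul, ← Finset.sum_const]
    exact Finset.sum_le_sum fun k _ => key R δ w S z hR hδ hw k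
  refine ⟨C ^ 4 * 4 + C ^ 4 * C', by nlinarith [mul_pos (pow_pos hC0 4) hC'], ?_⟩
  intro R δ w S z hR hδ hw
  have hw0 : 0 < w := by linarith
  have hR0 : 0 < R := by linarith
  have hCC : 0 < C ^ 4 * C' := mul_pos (pow_pos hC0 4) hC'
  refine ⟨fun k => ?_, fun j => ?_, fun hS => ?_⟩
  · refine (key R δ w S z hR hδ hw k).trans ?_
    nlinarith [mul_pos hCC hw0, mul_pos (pow_pos hC0 4) hw0]
  · refine (many R δ w (Sb w S j) z hR hδ hw).trans ?_
    have h1 : (((Sb w S j).image fun W => W.1).card : ℝ) ≤ 4 * w ^ 2 := by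
      have h2 := (hKBL R w 0 hR hw).2.2.2 ((Sb w S j).image fun W => W.1) j
      have h3 : ((Sb w S j).image fun W => W.1).filter (fun k => kb w k = j) =
          (Sb w S j).image fun W => W.1 := by
        rw [Finset.filter_eq_self]
        intro k hk
        obtain ⟨W, hW, rfl⟩ := Finset.mem_image.1 hk
        unfold Sb at hW
        exact (Finset.mem_filter.1 hW).2
      rw [h3] at h2
      exact h2
    have h4 : 0 < C ^ 4 * w := mul_pos (pow_pos hC0 4) hw0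
    calc (((Sb w S j).image fun W => W.1).card : ℝ) * (C ^ 4 * w) ≤ (4 * w ^ 2) * (C ^ 4 * w) :=
          mul_le_mul_of_nonneg_right h1 h4.le
      _ = C ^ 4 * 4 * w ^ 3 := by ring
      _ ≤ (C ^ 4 * 4 + C ^ 4 * C') * w ^ 3 := by nlinarith [mul_pos hCC (pow_pos hw0 3)]
  · refine (many R δ w S z hR hδ hw).trans ?_
    have hsR : 0 < sR R := by
      unfold sR
      exact inv_pos.2 (Real.sqrt_pos.2 hR0)
    have hsR1 : sR R ≤ 1 := by
      unfold sR
      exact inv_le_one_of_one_le₀ (by rw [Real.one_le_sqrt]; exact hR)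
    have h1 : ((S.image fun W => W.1).card : ℝ) ≤ C' * R := by
      have h2 : ((S.image fun W => W.1).card : ℝ) ≤ ((Ks 2 (sR R)).card : ℝ) := by
        have h3 : (S.image fun W => W.1) ⊆ Ks 2 (sR R) := by
          intro k hk
          obtain ⟨W, hW, rfl⟩ := Finset.mem_image.1 hk
          exact hS W hW
        exact_mod_cast Finset.card_le_card h3
      have h3 := hKs (sR R) hsR hsR1
      have h4 : ((sR R)⁻¹) ^ 2 = R := by
        unfold sR
        rw [inv_inv, Real.sq_sqrt hR0.le]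
      rw [h4] at h3
      exact h2.trans h3
    have h4 : 0 < C ^ 4 * w := mul_pos (pow_pos hC0 4) hw0
    calc ((S.image fun W => W.1).card : ℝ) * (C ^ 4 * w) ≤ (C' * R) * (C ^ 4 * w) :=
          mul_le_mul_of_nonneg_right h1 h4.le
      _ = C ^ 4 * C' * (w * R) := by ring
      _ ≤ (C ^ 4 * 4 + C ^ 4 * C') * w * R := by
          nlinarith [mul_pos (pow_pos hC0 4) (mul_pos hw0 hR0)]

end Pool.Agent.H98.HLM
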